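import Pool.Agent.MP_826def_gt.BF.Proj
import Pool.Agent.MP_826def_gt.BG.Fm

/-!
Chern classes from the projective bundle theorem.
-/

namespace Pool.Agent.MP_826def_gt.BF

open MU Set Topology

noncomputable section

namespace XCh

/-- The relation satisfied by the Chern classes. -/
def Rel {A B : Type 1} [CommRing A] [CommRing B] (φ : A →+* B) (t : B) (k : ℕ) (c : ℕ → A) : Prop :=
  c 0 = 1 ∧ (∀ i, k < i → c i = 0) ∧
    ∑ j ∈ Finset.range (k + 1), (-1) ^ j * (φ (c j) * t ^ (k - j)) = 0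

section alg

variable {A B : Type 1} [CommRing A] [CommRing B] (φ : A →+* B) (t : B) (k : ℕ)

theorem rel_sum (c : ℕ → A) :
    ∑ j ∈ Finset.range (k + 1), (-1) ^ j * (φ (c j) * t ^ (k - j)) =
      ∑ i : Fin k, t ^ (i : ℕ) * φ ((-1) ^ (k - i) * c (k - i)) + φ (c 0) * t ^ k := by
  rw [← Finset.sum_range_reflect, Finset.sum_range_succ,
    Fin.sum_univ_eq_sum_range (fun i => t ^ i * φ ((-1) ^ (k - i) * c (k - i))) k]
  congr 1
  · refine Finset.sum_congr rfl fun i hi => ?_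
    have h1 : k + 1 - 1 - i = k - i := by omega
    have h2 : k - (k - i) = i := by have := Finset.mem_range.1 hi; omega
    rw [h1, h2, map_mul, map_pow, map_neg, map_one]
    ring
  · simp

theorem sq_sign (j : ℕ) (x : A) : (-1) ^ j * ((-1) ^ j * x) = x := by
  rw [← mul_assoc, ← mul_pow]
  simp

theorem rel_ex (hb : Function.Surjective fun c : Fin k → A => ∑ i : Fin k, t ^ (i : ℕ) * φ (c i)) :
    ∃ c, Rel φ t k c := by
  obtain ⟨b, hb⟩ := hb (-t ^ k)
  refine ⟨fun j => if j = 0 then 1 else if hj : 0 < j ∧ j ≤ k then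
    (-1) ^ j * b ⟨k - j, by omega⟩ else 0, if_pos rfl, fun i hi => ?_, ?_⟩
  · exact (if_neg (by omega)).trans (dif_neg (by omega))
  · rw [rel_sum, if_pos rfl, map_one, one_mul, ← eq_neg_iff_add_eq_zero, ← hb]
    refine Finset.sum_congr rfl fun i _ => ?_
    have hi := i.2
    rw [if_neg (by omega), dif_pos (by omega), sq_sign]
    congr 3
    exact Fin.ext (by show k - (k - i) = i; omega)

theorem rel_un (hb : Function.Injective fun c : Fin k → A => ∑ i : Fin k, t ^ (i : ℕ) * φ (c i))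
    {c c' : ℕ → A} (h : Rel φ t k c) (h' : Rel φ t k c') : c = c' := by
  have e := h.2.2.trans h'.2.2.symm
  rw [rel_sum, rel_sum, h.1, h'.1] at e
  have e' := hb (add_right_cancel e)
  funext j
  rcases Nat.eq_zero_or_pos j with rfl | hj
  · rw [h.1, h'.1]
  rcases lt_or_ge k j with hk | hk
  · rw [h.2.1 j hk, h'.2.1 j hk]
  have e2 := congrFun e' ⟨k - j, by omega⟩
  have h2 : k - (k - j) = j := by omega
  simp only [h2] at e2
  rw [← sq_sign j (c j), e2, sq_sign]

theorem rel_vieta (x : Fin k → A) (h : ∏ l, (φ (x l) - t) = 0) :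
    Rel φ t k (Finset.univ.val.map x).esymm := by
  refine ⟨by simp [Multiset.esymm], fun i hi => ?_, ?_⟩
  · rw [Finset.esymm_map_val, Finset.powersetCard_eq_empty.2 (by simpa using hi), Finset.sum_empty]
  · have e := congrArg (Polynomial.eval₂RingHom φ t)
      (Multiset.prod_X_sub_X_eq_sum_esymm (Finset.univ.val.map x))
    have e1 : ∏ l, (t - φ (x l)) = 0 := by
      have : ∀ l, t - φ (x l) = -1 * (φ (x l) - t) := fun l => by ring
      simp only [this, Finset.prod_mul_distrib, h, mul_zero]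
    rw [Multiset.map_map, ← Finset.prod_eq_multiset_prod, map_prod, map_sum] at e
    simp only [Function.comp, map_sub, map_mul, map_pow, map_neg, map_one, Polynomial.coe_eval₂RingHom,
      Polynomial.eval₂_X, Polynomial.eval₂_C, Multiset.card_map, Finset.card_val, Finset.card_univ,
      Fintype.card_fin] at e
    exact e.symm.trans e1

end alg

theorem tr_idem {W : FD} (p : W →L[ℂ] W) (hp : p ∘L p = p) :
    LinearMap.trace ℂ W (p : W →ₗ[ℂ] W) = rk p :=
  (LinearMap.IsIdempotentElem.isProj_range (p : W →ₗ[ℂ] W)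
    (congrArg ContinuousLinearMap.toLinearMap hp)).trace

variable {K K' : Type} [TopologicalSpace K] [TopologicalSpace K']

theorem rk_split (ξ : Bun K) {k : ℕ} (L : Fin k → Bun K) (h1 : ∀ i, (L i).Rk 1) (hs : ξ.Split L) :
    ξ.Rk k := by
  obtain ⟨u, v, H⟩ := hs
  intro x
  have e : (rk (ξ.p x) : ℂ) = k := by
    rw [← tr_idem _ (ξ.idem x), ← (H x).2.2, ContinuousLinearMap.coe_sum, map_sum]
    have : ∀ i, LinearMap.trace ℂ ξ.W ((u i x ∘L v i x : ξ.W →L[ℂ] ξ.W) : ξ.W →ₗ[ℂ] ξ.W) = 1 :=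
      fun i => by
        have e1 := LinearMap.trace_comp_comm' (v i x : ξ.W →ₗ[ℂ] (L i).W) (u i x : (L i).W →ₗ[ℂ] ξ.W)
        have e2 := tr_idem _ ((L i).idem x)
        rw [h1 i x, Nat.cast_one, ← (H x).1 i] at e2
        exact e1.trans e2
    simp only [this, Finset.sum_const, Finset.card_univ, Fintype.card_fin, nsmul_eq_mul, mul_one]
  exact_mod_cast e

variable [C : Fact Core] [CompactSpace K] [T2Space K] [CompactSpace K'] [T2Space K']

open Classical in
/-- The Chern classes. -/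
def chern (ξ : Bun K) : ℕ → h K :=
  if H : ∃ c, ∃ k, ξ.Rk k ∧ Rel (pullR (PB.π ξ)) (eu (PB.L ξ)) k c then H.choose else 0

theorem chern_eq (A : Api) (p : S_PBT) (ξ : Bun K) {k : ℕ} (hk : ξ.Rk k) {c : ℕ → h K}
    (hc : Rel (pullR (PB.π ξ)) (eu (PB.L ξ)) k c) : chern ξ = c := by
  have H : ∃ c, ∃ k, ξ.Rk k ∧ Rel (pullR (PB.π ξ)) (eu (PB.L ξ)) k c := ⟨c, k, hk, hc⟩
  rcases isEmpty_or_nonempty K with _ | ⟨⟨x⟩⟩
  · exact funext fun i => (A.fn.empty _).trans (A.fn.empty _).symm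
  obtain ⟨k', hk', h'⟩ := H.choose_spec
  obtain rfl : k' = k := (hk' x).symm.trans (hk x)
  rw [chern, dif_pos H]
  exact rel_un _ _ _ (PB.basis A p ξ hk).1 h' hc

theorem chern_rel (A : Api) (p : S_PBT) (ξ : Bun K) {k : ℕ} (hk : ξ.Rk k) :
    Rel (pullR (PB.π ξ)) (eu (PB.L ξ)) k (chern ξ) := by
  obtain ⟨c, hc⟩ := rel_ex _ _ _ (PB.basis A p ξ hk).2
  rw [chern_eq A p ξ hk hc]
  exact hc

theorem chern_nat (A : Api) (p : S_PBT) (ξ : Bun K) (k : ℕ) (f : C(K', K)) (hk : ξ.Rk k) (i : ℕ) :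
    pullR f (chern ξ i) = chern (ξ.pull f) i := by
  obtain ⟨h0, h1, h2⟩ := chern_rel A p ξ hk
  have : Rel (pullR (PB.π (ξ.pull f))) (eu (PB.L (ξ.pull f))) k fun i => pullR f (chern ξ i) := by
    refine ⟨(congrArg _ h0).trans (map_one _), fun i hi => (congrArg _ (h1 i hi)).trans (map_zero _),
      ?_⟩
    have e := congrArg (pullR (PB.map ξ f)) h2
    rw [map_zero, map_sum] at e
    refine Eq.trans (Finset.sum_congr rfl fun j _ => ?_) e
    rw [map_mul, map_mul, map_pow, map_pow, map_neg, map_one, A.eul.pull, pullR_comp, pullR_comp,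
      PB.π_map]
    rfl
  exact (congrFun (chern_eq A p (ξ.pull f) (fun x => hk (f x)) this) i).symm

theorem deg_mul (A : Api) {d : ℤ} {a : h K} (ha : IsDeg d a) (e : ℤ) (y : h K) :
    part (d + e) (a * y) = a * part e y := A.deg.prod _ _ d e a ha y

theorem deg_pow (A : Api) {t : h K} (ht : IsDeg 1 t) (n : ℕ) : IsDeg n (t ^ n) := by
  induction n with
  | zero => rw [pow_zero]; exact A.deg.one K
  | succ n ih =>
    have e := deg_mul A ht n (t ^ n)
    rw [ih, ← pow_succ', add_comm] at e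
    rw [Nat.cast_succ]
    exact e

theorem chern_deg (A : Api) (p : S_PBT) (ξ : Bun K) (k : ℕ) (hk : ξ.Rk k) (i : ℕ) :
    IsDeg i (chern ξ i) := by
  obtain ⟨h0, h1, h2⟩ := chern_rel A p ξ hk
  have ht : IsDeg 1 (eu (PB.L ξ)) := A.eul.deg _ 1 (PB.rk_L A.bun ξ)
  have : Rel (pullR (PB.π ξ)) (eu (PB.L ξ)) k fun i => part i (chern ξ i) := by
    refine ⟨?_, fun i hi => (congrArg _ (h1 i hi)).trans (map_zero _), ?_⟩
    · show part _ (chern ξ 0) = 1
      rw [h0]
      exact A.deg.one K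
    have e := congrArg (part (k : ℤ)) h2
    rw [map_zero, map_sum] at e
    refine Eq.trans (Finset.sum_congr rfl fun j hj => ?_) e
    have e1 : (k : ℤ) = (k - j : ℕ) + j := by have := Finset.mem_range.1 hj; omega
    have e2 : part (k : ℤ) (pullR (PB.π ξ) (chern ξ j) * eu (PB.L ξ) ^ (k - j)) =
        pullR (PB.π ξ) (part j (chern ξ j)) * eu (PB.L ξ) ^ (k - j) := by
      rw [mul_comm, mul_comm (pullR _ _), e1, deg_mul A (deg_pow A ht (k - j)), pullR_apply,
        pullR_apply, A.deg.pull]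
    rcases neg_one_pow_eq_or (h (PB ξ)) j with e3 | e3
    · rw [e3, one_mul, one_mul, e2]
    · rw [e3, neg_one_mul, neg_one_mul, map_neg, e2]
  exact (congrFun (chern_eq A p ξ hk this) i).symm

theorem chern_split (A : Api) (p : S_PBT) (f : S_FGL) (ξ : Bun K) (k : ℕ) (L : Fin k → Bun K)
    (h1 : ∀ i, (L i).Rk 1) (hs : ξ.Split L) (i : ℕ) :
    chern ξ i = (Finset.univ.val.map fun l => eu (L l)).esymm i := by
  have hk := rk_split ξ L h1 hs
  obtain ⟨a, ha⟩ := f
  obtain ⟨u, v, H⟩ := hs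
  have hL := PB.rk_L A.bun ξ
  let M : Fin k → Bun (PB ξ) := fun l => (PB.L ξ).hom ((L l).pull (PB.π ξ))
  let F : FD.std ξ.W.dim →L[ℂ] ξ.W := fr ξ.W
  let σ : ∀ l, C(PB ξ, (M l).W) := fun l => ⟨fun z => (M l).p z (v l (PB.π ξ z) ∘L F),
    (M l).p.continuous.clm_apply
      (((v l).continuous.comp (PB.π ξ).continuous).clm_comp continuous_const)⟩
  have hz : ∏ l, eu (M l) = 0 := by
    refine A.eul.nz M σ (fun l z => congrArg (fun q : (M l).W →L[ℂ] (M l).W =>
      q (v l (PB.π ξ z) ∘L F)) ((M l).idem z)) fun z => ?_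
    by_contra hn
    have hn' : ∀ l, σ l z = 0 := fun l => by_contra fun e => hn ⟨l, e⟩
    obtain ⟨H1, H2, H3⟩ := H z.1.1
    have h0 : mv z.1.2.1 = 0 := ContinuousLinearMap.ext fun y => by
      have hw : ∑ l, u l z.1.1 (v l z.1.1 (F (mv z.1.2.1 y))) = F (mv z.1.2.1 y) := by
        have := congrArg (fun q : ξ.W →L[ℂ] ξ.W => q (F (mv z.1.2.1 y))) H3
        simp only [ContinuousLinearMap.sum_apply, ContinuousLinearMap.comp_apply] at this
        exact this.trans (z.2 y)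
      have hv : ∀ l, v l z.1.1 (F (mv z.1.2.1 y)) = 0 := fun l => by
        have e1 : (L l).p z.1.1 (v l z.1.1 (F (mv z.1.2.1 y))) = 0 :=
          congrArg (fun q : (M l).W => q y) (hn' l)
        rw [← hw, map_sum]
        refine (Finset.sum_eq_single l (fun j _ hj => ?_) fun e => (e (Finset.mem_univ l)).elim).trans ?_
        · exact congrArg (fun q : (L j).W →L[ℂ] (L l).W => q (v j z.1.1 (F (mv z.1.2.1 y))))
            (H2 l j hj.symm)
        exact (congrArg (fun q : (L l).W →L[ℂ] (L l).W => q (v l z.1.1 (F (mv z.1.2.1 y))))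
          (H1 l)).trans e1
      simp only [hv, map_zero, Finset.sum_const_zero] at hw
      exact (fr ξ.W).injective (hw.symm.trans (map_zero _).symm)
    have e1 : rk (W := FD.std ξ.W.dim) (mv z.1.2.1) = 1 := hL z
    rw [h0, rk, ContinuousLinearMap.coe_zero, LinearMap.range_zero, finrank_bot] at e1
    exact zero_ne_one e1
  have hd : ∀ l, eu (M l) ∣ pullR (PB.π ξ) (eu (L l)) - eu (PB.L ξ) := fun l => by
    have hl : ((L l).pull (PB.π ξ)).Rk 1 := fun z => h1 l _
    have hM : (M l).Rk 1 := A.bun.rk_hom _ _ 1 1 hL hl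
    rw [A.eul.pull, ha.tens (M l) (PB.L ξ) _ hM hL hl (A.bun.tens_hom _ _ hL)]
    refine ((BG.sFm _ _ _ _).2.2.2 (fun i => ?_) (fun i j => ?_) (ha.nil _ hM)
      (ha.nil _ hL)).2.2.2.1
    · rw [cf, ha.fg.unit, apply_ite (toU (PB ξ)), map_one, map_zero]
    · rw [cf, cf, ha.fg.symm]
  have hp : ∏ l, (pullR (PB.π ξ) (eu (L l)) - eu (PB.L ξ)) = 0 :=
    zero_dvd_iff.1 (hz ▸ Finset.prod_dvd_prod_of_dvd _ _ fun l _ => hd l)
  exact congrFun (chern_eq A p ξ hk (rel_vieta _ _ k _ hp)) i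

end XCh

theorem ch [Fact Core] (A : Api) (p : S_PBT) (f : S_FGL) : S_Ch :=
  ⟨fun ξ => XCh.chern ξ, XCh.chern_nat A p, XCh.chern_split A p f, XCh.chern_deg A p⟩

end

end Pool.Agent.MP_826def_gt.BF
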