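import Pool.Agent.MP_826def_gt.MU.Spec
import Pool.Agent.MP_826def_gt.BG.FGof

/-!
The formal group law of complex cobordism.
-/

namespace Pool.Agent.MP_826def_gt.BF

open MU BG Finset

noncomputable section

section alg

variable {U A : Type 1} [CommRing U] [CommRing A] (φ : U →+* A) {X : Fin 2 → A} {N : ℕ}

lemma dsum (hX : ∀ i, X i ^ N = 0) (a : ℕ → ℕ → U) : Fm (cf φ a) (X 0) (X 1) =
    ∑ e : Fin 2 → Fin N, (∏ i, X i ^ (e i : ℕ)) • (φ : U →+ A) (a (e 0) (e 1)) := by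
  rw [fm_eq _ _ _ N (hX 0) (hX 1), sum_range, ← (finTwoArrowEquiv (Fin N)).symm.sum_comp,
    Fintype.sum_prod_type]
  refine sum_congr rfl fun i _ => ?_
  rw [sum_range]
  refine sum_congr rfl fun j _ => ?_
  rw [Fin.prod_univ_two, smul_eq_mul, mul_comm]
  rfl

lemma free_ex (hX : ∀ i, X i ^ N = 0) (hF : FreeOn X N (φ : U →+ A)) (z : A) :
    ∃ a : ℕ → ℕ → U, z = Fm (cf φ a) (X 0) (X 1) := by
  obtain ⟨c, rfl⟩ := hF.2 z
  refine ⟨fun i j => if hij : i < N ∧ j < N then c ![⟨i, hij.1⟩, ⟨j, hij.2⟩] else 0, ?_⟩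
  rw [dsum φ hX]
  refine sum_congr rfl fun e _ => ?_
  rw [dif_pos ⟨(e 0).2, (e 1).2⟩]
  congr 3
  funext i
  fin_cases i <;> rfl

lemma free_uniq (hX : ∀ i, X i ^ N = 0) (hF : FreeOn X N (φ : U →+ A)) {a b : ℕ → ℕ → U}
    (e : Fm (cf φ a) (X 0) (X 1) = Fm (cf φ b) (X 0) (X 1)) {i j : ℕ} (hi : i < N) (hj : j < N) :
    a i j = b i j := by
  rw [dsum φ hX, dsum φ hX] at e
  exact congrFun (hF.1 e) ![⟨i, hi⟩, ⟨j, hj⟩]

lemma fm_congr {a b : ℕ → ℕ → U} {x y : A} (hx : x ^ N = 0) (hy : y ^ N = 0)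
    (e : ∀ i j, i < N → j < N → a i j = b i j) : Fm (cf φ a) x y = Fm (cf φ b) x y := by
  rw [fm_eq _ _ _ N hx hy, fm_eq _ _ _ N hx hy]
  refine sum_congr rfl fun i hi => sum_congr rfl fun j hj => ?_
  rw [cf, cf, e i j (mem_range.1 hi) (mem_range.1 hj)]

end alg

section bun

variable {K : Type} [TopologicalSpace K]

lemma tens_symm {L₁ L₂ L₃ : Bun K} (t : L₁.Tens L₂ L₃) : L₂.Tens L₁ L₃ := by
  obtain ⟨β, hβ⟩ := t
  refine ⟨⟨fun x => (β x).flip, (ContinuousLinearMap.flipₗᵢ ℂ L₁.W L₂.W L₃.W).continuous.comp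
    β.continuous⟩, fun x a b ha hb => ⟨(hβ x b a hb ha).1, fun e => ((hβ x b a hb ha).2 e).symm⟩⟩

lemma tens_unit (L : Bun K) : L.Tens (Bun.triv K FD.C) L := by
  refine ⟨ContinuousMap.const K (ContinuousLinearMap.lsmul ℂ ℂ (E := L.W)).flip,
    fun x a b ha _ => ⟨?_, fun e => (smul_eq_zero.1 e).symm⟩⟩
  show L.p x ((b : ℂ) • a) = (b : ℂ) • a
  rw [map_smul, ha]

lemma iso_refl (L : Bun K) : L.Iso L := ⟨L.p, L.p, fun x => ⟨L.idem x, L.idem x⟩⟩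

lemma iso_symm {L M : Bun K} (e : L.Iso M) : M.Iso L := by
  obtain ⟨u, v, e⟩ := e
  exact ⟨v, u, fun x => (e x).symm⟩

lemma rk_C (b : S_bun) : (Bun.triv K FD.C).Rk 1 := by
  have := b.rk_triv K FD.C
  rwa [show FD.C.dim = 1 from Module.finrank_self ℂ] at this

lemma rk_tens (b : S_bun) {L M : Bun K} (hL : L.Rk 1) (hM : M.Rk 1) : (L.tens M).Rk 1 :=
  b.rk_hom _ _ 1 1 (b.rk_hom _ _ 1 1 hM (rk_C b)) hL

end bun

/-- The coordinate projections. -/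
abbrev pr (r N : ℕ) (i : Fin r) : C(Fin r → CP N N, CP N N) := ⟨fun b => b i, continuous_apply i⟩

variable [C : Fact Core] {K : Type} [TopologicalSpace K] [CompactSpace K] [T2Space K]

lemma isDeg_mul (A : Api) {d e : ℤ} {a b : h K} (ha : IsDeg d a) (hb : IsDeg e b) :
    IsDeg (d + e) (a * b) := by
  have := A.deg.prod (ContinuousMap.id K) (ContinuousMap.id K) d e a ha b
  rw [hb] at this
  exact this

lemma isDeg_pow (A : Api) {a : h K} (ha : IsDeg 1 a) (n : ℕ) : IsDeg n (a ^ n) := by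
  induction n with
  | zero => rw [pow_zero]; exact A.deg.one K
  | succ n ih => rw [pow_succ, Nat.cast_succ]; exact isDeg_mul A ih ha

lemma eu_C (A : Api) : eu (Bun.triv K FD.C) = 0 := by
  have := A.eul.nz (fun _ : Unit => Bun.triv K FD.C) (fun _ => ContinuousMap.const K (1 : ℂ))
    (fun _ _ => rfl) fun _ => ⟨(), one_ne_zero (α := ℂ)⟩
  rwa [Fintype.prod_unique] at this

lemma pullR_toU {K' : Type} [TopologicalSpace K'] [CompactSpace K'] [T2Space K'] (f : C(K', K))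
    (u : UU) : pullR f (toU K u) = toU K' u :=
  pull_comp (toPt K).continuous.isProperMap f.continuous.isProperMap u

lemma univ_of (A : Api) (c : S_CPr) {N : ℕ} {a : ℕ → ℕ → UU}
    (ha : eu (tm (pr 2 N 0) (pr 2 N 1)) = Fm (cf (toU _) a) (xs 2 N N 0) (xs 2 N N 1))
    (L₁ L₂ L₃ : Bun K) (r₁ : L₁.Rk 1) (r₂ : L₂.Rk 1) (r₃ : L₃.Rk 1) (t : L₁.Tens L₂ L₃)
    (d₁ : L₁.W.dim ≤ N) (d₂ : L₂.W.dim ≤ N) :
    eu L₁ ^ N = 0 ∧ eu L₂ ^ N = 0 ∧ eu L₃ = Fm (cf (toU K) a) (eu L₁) (eu L₂) := by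
  obtain ⟨f₁, e₁⟩ := A.bun.classify L₁ N r₁ d₁
  obtain ⟨f₂, e₂⟩ := A.bun.classify L₂ N r₂ d₂
  let F : C(K, Fin 2 → CP N N) := ⟨fun x => ![f₁ x, f₂ x], continuous_pi fun i => by
    fin_cases i
    exacts [f₁.continuous, f₂.continuous]⟩
  have hX := (c 2 N N le_rfl).1
  have x₁ : pullR F (xs 2 N N 0) = eu L₁ := (A.eul.pull F _).trans (A.eul.iso _ _ e₁).symm
  have x₂ : pullR F (xs 2 N N 1) = eu L₂ := (A.eul.pull F _).trans (A.eul.iso _ _ e₂).symm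
  have x₃ : pullR F (eu (tm (pr 2 N 0) (pr 2 N 1))) = eu L₃ := by
    refine (A.eul.pull F _).trans (A.eul.iso (tm f₁ f₂) L₃ ?_)
    exact A.bun.tens_iso L₁ L₂ _ _ r₁ r₂ (A.bun.rk_tm f₁ f₂) r₃ (A.bun.tens_congr _ _ _ _ _ _
      (iso_symm e₁) (iso_symm e₂) (iso_refl _) (A.bun.tens_tm f₁ f₂)) t
  refine ⟨by rw [← x₁, ← map_pow, hX, map_zero], by rw [← x₂, ← map_pow, hX, map_zero], ?_⟩
  rw [← x₃, ha, map_fm _ _ ⟨N, hX 0⟩ ⟨N, hX 1⟩, x₁, x₂]
  congr 1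
  funext i j
  exact pullR_toU F _

theorem fgl (A : Api) (c : S_CPr) : S_FGL := by
  have hX : ∀ r N i, xs r N N i ^ N = 0 := fun r N => (c r N N le_rfl).1
  have hF : ∀ r N, FreeOn (xs r N N) N (toU (Fin r → CP N N) : UU →+ h (Fin r → CP N N)) :=
    fun r N => (c r N N le_rfl).2.1
  have rx : ∀ r N i, ((taut N N).pull (pr r N i)).Rk 1 := fun r N i _ => A.bun.rk_taut _ _ _
  choose b hb using fun N => free_ex _ (hX 2 N) (hF 2 N) (eu (tm (pr 2 N 0) (pr 2 N 1)))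
  have cp : ∀ N M, N ≤ M → ∀ i j, i < N → j < N → b N i j = b M i j := fun N M hM i j hi hj => by
    have dN : (FD.std N).dim ≤ M := (Module.finrank_fin_fun ℂ).trans_le hM
    exact free_uniq _ (hX 2 N) (hF 2 N) ((hb N).symm.trans (univ_of A c (hb M) _ _ _ (rx 2 N 0)
      (rx 2 N 1) (A.bun.rk_tm _ _) (A.bun.tens_tm _ _) dN dN).2.2) hi hj
  let a : ℕ → ℕ → UU := fun i j => b (i + j + 1) i j
  have ab : ∀ N i j, i < N → j < N → a i j = b N i j := fun N i j hi hj =>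
    (cp _ (N + (i + j + 1)) (by omega) i j (by omega) (by omega)).trans
      (cp N _ (by omega) i j hi hj).symm
  have tens : ∀ {K : Type} [TopologicalSpace K] [CompactSpace K] [T2Space K] (L₁ L₂ L₃ : Bun K),
      L₁.Rk 1 → L₂.Rk 1 → L₃.Rk 1 → L₁.Tens L₂ L₃ →
      eu L₃ = Fm (cf (toU K) a) (eu L₁) (eu L₂) := fun L₁ L₂ L₃ r₁ r₂ r₃ t => by
    obtain ⟨n₁, n₂, e⟩ := univ_of A c (hb (L₁.W.dim + L₂.W.dim)) L₁ L₂ L₃ r₁ r₂ r₃ t (by omega)
      (by omega)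
    rw [e]
    exact (fm_congr _ n₁ n₂ (ab _)).symm
  have key : ∀ N, eu (tm (pr 2 N 0) (pr 2 N 1)) = Fm (cf (toU _) a) (xs 2 N N 0) (xs 2 N N 1) :=
    fun N => tens _ _ _ (rx 2 N 0) (rx 2 N 1) (A.bun.rk_tm _ _) (A.bun.tens_tm _ _)
  have unit : ∀ i, a i 0 = if i = 1 then 1 else 0 := fun i => by
    have e : xs 2 (i + 2) (i + 2) 0 = Fm (cf (toU _) a) (xs 2 (i + 2) (i + 2) 0) (eu _) :=
      tens _ _ _ (rx 2 _ 0) (rk_C A.bun) (rx 2 _ 0) (tens_unit _)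
    rw [eu_C A, fm_eq _ _ _ (i + 2) (hX 2 _ 0) (zero_pow (by omega))] at e
    have := free_uniq (a := fun k l => if l = 0 then a k 0 else 0)
      (b := fun k l => if l = 0 then (if k = 1 then 1 else 0) else 0) _ (hX 2 (i + 2)) (hF 2 _) (by
        rw [fm_eq _ _ _ _ (hX 2 _ 0) (hX 2 _ 1), fm_eq _ _ _ _ (hX 2 _ 0) (hX 2 _ 1)]
        refine Eq.trans ?_ (e.symm.trans ?_)
        · refine sum_congr rfl fun k _ => sum_congr rfl fun l _ => ?_
          rcases l with _ | l <;> simp [cf]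
        · rw [sum_eq_single 1, sum_eq_single 0]
          · simp [cf]
          · intro l _ hl
            simp [cf, hl]
          · simp
          · intro k _ hk
            simp [cf, hk]
          · simp) (i := i) (j := 0) (by omega) (by omega)
    simpa using this
  have symm : ∀ i j, a i j = a j i := fun i j => by
    have e := tens _ _ _ (rx 2 (i + j + 1) 1) (rx 2 _ 0) (A.bun.rk_tm _ _)
      (tens_symm (A.bun.tens_tm (pr 2 _ 0) (pr 2 _ 1)))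
    refine free_uniq (b := fun k l => a l k) _ (hX 2 (i + j + 1)) (hF 2 _)
      ((key _).symm.trans (e.trans ?_)) (by omega) (by omega)
    show Fm _ (xs 2 _ _ 1) (xs 2 _ _ 0) = _
    rw [fm_eq _ _ _ _ (hX 2 _ 1) (hX 2 _ 0), fm_eq _ _ _ _ (hX 2 _ 0) (hX 2 _ 1), sum_comm]
    exact sum_congr rfl fun k _ => sum_congr rfl fun l _ => by rw [mul_comm (_ ^ l)]; rfl
  refine ⟨a, sFGof _ a unit symm fun n => ⟨_, inferInstance, toU _, xs 3 n n, hX 3 n, hF 3 n, ?_⟩,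
    fun i j => ?_, fun L r => ⟨_, (univ_of A c (hb L.W.dim) L L _ r r (rk_tens A.bun r r)
      (A.bun.tens_tens _ _) le_rfl le_rfl).1⟩, tens⟩
  · have r01 := rk_tens A.bun (rx 3 n 0) (rx 3 n 1)
    have r12 := rk_tens A.bun (rx 3 n 1) (rx 3 n 2)
    have r3 := rk_tens A.bun r01 (rx 3 n 2)
    have e1 := tens _ _ _ r01 (rx 3 n 2) r3 (A.bun.tens_tens _ _)
    have e2 := tens _ _ _ (rx 3 n 0) r12 r3
      (A.bun.tens_assoc _ _ _ (rx 3 n 0) (rx 3 n 1) (rx 3 n 2))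
    rw [tens _ _ _ (rx 3 n 0) (rx 3 n 1) r01 (A.bun.tens_tens _ _)] at e1
    rw [tens _ _ _ (rx 3 n 1) (rx 3 n 2) r12 (A.bun.tens_tens _ _)] at e2
    exact e1.symm.trans e2
  · have dx : ∀ l, IsDeg 1 (xs 2 (i + j + 1) (i + j + 1) l) := fun l => A.eul.deg _ 1 (rx 2 _ l)
    have e : IsDeg 1 (eu (tm (pr 2 (i + j + 1) 0) (pr 2 _ 1))) := A.eul.deg _ 1 (A.bun.rk_tm _ _)
    rw [key] at e
    refine free_uniq (a := fun k l => part (1 - k - l) (a k l)) _ (hX 2 (i + j + 1)) (hF 2 _)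
      (Eq.trans ?_ e) (by omega) (by omega)
    rw [fm_eq _ _ _ _ (hX 2 _ 0) (hX 2 _ 1), fm_eq _ _ _ _ (hX 2 _ 0) (hX 2 _ 1), map_sum]
    refine sum_congr rfl fun k _ => ?_
    rw [map_sum]
    refine sum_congr rfl fun l _ => ?_
    have := A.deg.prod (ContinuousMap.id _) (ContinuousMap.id _) _ (1 - k - l) _
      (isDeg_mul A (isDeg_pow A (dx 0) k) (isDeg_pow A (dx 1) l)) (toU _ (a k l))
    rw [show (k : ℤ) + l + (1 - k - l) = 1 by ring, pullR_apply, A.deg.pull] at this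
    rw [mul_comm, mul_comm (cf _ a k l)]
    exact this.symm

end

end Pool.Agent.MP_826def_gt.BF
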