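import Pool.Agent.MP_826def_gt.MU.Spec

/-!
The projective bundle of a vector bundle, as a concrete space.
-/

namespace Pool.Agent.MP_826def_gt.BF

open MU Set Topology

noncomputable section

/-- A chosen frame. -/
def fr (W : FD) : FD.std W.dim ≃L[ℂ] W :=
  ContinuousLinearEquiv.ofFinrankEq (by simp)

variable {K K' : Type} [TopologicalSpace K] [TopologicalSpace K']

/-- The projective bundle. -/
def PB (ξ : Bun K) : Type :=
  {z : K × CP ξ.W.dim ξ.W.dim // ∀ y, ξ.p z.1 (fr ξ.W (mv z.2.1 y)) = fr ξ.W (mv z.2.1 y)}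

instance (ξ : Bun K) : TopologicalSpace (PB ξ) := instTopologicalSpaceSubtype

instance [T2Space K] (ξ : Bun K) : T2Space (PB ξ) :=
  inferInstanceAs (T2Space {_z : K × CP ξ.W.dim ξ.W.dim // _})

instance [CompactSpace K] (ξ : Bun K) : CompactSpace (PB ξ) := by
  refine isCompact_iff_compactSpace.1 (IsClosed.isCompact (?_ : IsClosed {z : K × CP ξ.W.dim ξ.W.dim |
    ∀ y, ξ.p z.1 (fr ξ.W (mv z.2.1 y)) = fr ξ.W (mv z.2.1 y)}))
  rw [ofPred_forall]
  refine isClosed_iInter fun y => ?_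
  have h1 : Continuous fun z : K × CP ξ.W.dim ξ.W.dim => fr ξ.W (mv z.2.1 y) :=
    (fr ξ.W).continuous.comp ((mv_cont.comp (continuous_subtype_val.comp continuous_snd)).clm_apply
      continuous_const)
  exact isClosed_eq ((ξ.p.continuous.comp continuous_fst).clm_apply h1) h1

/-- The projection to the base. -/
def PB.π (ξ : Bun K) : C(PB ξ, K) := ⟨fun z => z.1.1, continuous_fst.comp continuous_subtype_val⟩

/-- The line. -/
def PB.q (ξ : Bun K) : C(PB ξ, CP ξ.W.dim ξ.W.dim) :=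
  ⟨fun z => z.1.2, continuous_snd.comp continuous_subtype_val⟩

theorem PB.isPr (ξ : Bun K) : IsPr ξ (fr ξ.W) (PB.π ξ) (PB.q ξ) :=
  ⟨IsEmbedding.subtypeVal, Subtype.range_coe⟩

/-- The tautological line bundle. -/
abbrev PB.L (ξ : Bun K) : Bun (PB ξ) := (taut ξ.W.dim ξ.W.dim).pull (PB.q ξ)

/-- The map induced by a map of the bases. -/
def PB.map (ξ : Bun K) (f : C(K', K)) : C(PB (ξ.pull f), PB ξ) :=
  ⟨fun z => ⟨(f z.1.1, z.1.2), z.2⟩,
    ((f.continuous.comp (continuous_fst.comp continuous_subtype_val)).prodMk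
      (continuous_snd.comp continuous_subtype_val)).subtype_mk _⟩

theorem PB.π_map (ξ : Bun K) (f : C(K', K)) :
    (PB.π ξ).comp (PB.map ξ f) = f.comp (PB.π (ξ.pull f)) := rfl

theorem PB.L_map (ξ : Bun K) (f : C(K', K)) : (PB.L ξ).pull (PB.map ξ f) = PB.L (ξ.pull f) := rfl

theorem PB.rk_L (b : S_bun) (ξ : Bun K) : (PB.L ξ).Rk 1 := fun _ => b.rk_taut _ _ _

variable [C : Fact Core]

theorem pullR_comp {K'' : Type} [TopologicalSpace K''] [CompactSpace K] [T2Space K]
    [CompactSpace K'] [T2Space K'] [CompactSpace K''] [T2Space K''] (f : C(K', K)) (g : C(K'', K'))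
    (x : h K) : pullR g (pullR f x) = pullR (f.comp g) x :=
  pull_comp f.continuous.isProperMap g.continuous.isProperMap x

/-- The even part of the projective bundle theorem over a compact base. -/
theorem basis_of (A : Api) (p : S_PBT) [CompactSpace K] [T2Space K] {P : Type} [TopologicalSpace P]
    [CompactSpace P] [T2Space P] (ξ : Bun K) {k N : ℕ} (φ : FD.std N ≃L[ℂ] ξ.W) (π : C(P, K))
    (q : C(P, CP N N)) (hk : ξ.Rk k) (hp : IsPr ξ φ π q) :
    Function.Bijective fun c : Fin k → h K =>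
      ∑ i : Fin k, eu ((taut N N).pull q) ^ (i : ℕ) * pullR π (c i) := by
  have hb := (p ξ k N φ π q hk hp).2
  have e : ∀ c : Fin k → H K, (∑ i : Fin k, Hact q (eu (taut N N) ^ (i : ℕ)) (Hpull π (c i))).1 =
      ∑ i : Fin k, eu ((taut N N).pull q) ^ (i : ℕ) * pullR π (c i).1 := fun c => by
    rw [Prod.fst_sum]
    refine Finset.sum_congr rfl fun i _ => ?_
    rw [← A.eul.pull, ← map_pow, ← A.act.self]
    rfl
  constructor
  · intro c c' hc
    have : (fun i => ((c i, 0) : H K)) = fun i => (c' i, 0) := hb.1 (Prod.ext (by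
      rw [e, e]; exact hc) (by
      rw [Prod.snd_sum, Prod.snd_sum]
      rfl))
    exact funext fun i => congrArg Prod.fst (congrFun this i)
  · intro y
    obtain ⟨c, hc⟩ := hb.2 (y, 0)
    exact ⟨fun i => (c i).1, (e c).symm.trans (congrArg Prod.fst hc)⟩

theorem PB.basis (A : Api) (p : S_PBT) [CompactSpace K] [T2Space K] (ξ : Bun K) {k : ℕ}
    (hk : ξ.Rk k) : Function.Bijective fun c : Fin k → h K =>
      ∑ i : Fin k, eu (PB.L ξ) ^ (i : ℕ) * pullR (PB.π ξ) (c i) :=
  basis_of A p ξ _ _ _ hk (PB.isPr ξ)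

end

end Pool.Agent.MP_826def_gt.BF
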