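import Pool.Agent.MP_826def_gt.BF.Proj

/-!
The splitting principle.
-/

namespace Pool.Agent.MP_826def_gt.BF

open MU Set Topology

noncomputable section

variable {K K' : Type} [TopologicalSpace K] [TopologicalSpace K']

theorem idem_apply {W : FD} {p : W →L[ℂ] W} (hp : p ∘L p = p) (w : W) : p (p w) = p w :=
  congrArg (fun A : W →L[ℂ] W => A w) hp

/-- The component in the tautological line. -/
def PB.co (ξ : Bun K) : C(PB ξ, ξ.W →L[ℂ] FD.std ξ.W.dim) :=
  ⟨fun z => (PB.L ξ).p z ∘L ((fr ξ.W).symm : ξ.W →L[ℂ] FD.std ξ.W.dim) ∘L ξ.p (PB.π ξ z),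
    (PB.L ξ).p.continuous.clm_comp
      (continuous_const.clm_comp (ξ.p.continuous.comp (PB.π ξ).continuous))⟩

/-- The inclusion of the tautological line. -/
def PB.inc (ξ : Bun K) : C(PB ξ, FD.std ξ.W.dim →L[ℂ] ξ.W) :=
  ⟨fun z => (fr ξ.W : FD.std ξ.W.dim →L[ℂ] ξ.W) ∘L (PB.L ξ).p z,
    continuous_const.clm_comp (PB.L ξ).p.continuous⟩

theorem PB.co_apply (ξ : Bun K) (z : PB ξ) (w : ξ.W) :
    PB.co ξ z w = (PB.L ξ).p z ((fr ξ.W).symm (ξ.p (PB.π ξ z) w)) := rfl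

theorem PB.inc_apply (ξ : Bun K) (z : PB ξ) (a : FD.std ξ.W.dim) :
    PB.inc ξ z a = fr ξ.W ((PB.L ξ).p z a) := rfl

theorem PB.p_inc (ξ : Bun K) (z : PB ξ) (a : FD.std ξ.W.dim) :
    ξ.p (PB.π ξ z) (PB.inc ξ z a) = PB.inc ξ z a := z.2 a

theorem PB.co_p (ξ : Bun K) (z : PB ξ) (w : ξ.W) :
    PB.co ξ z (ξ.p (PB.π ξ z) w) = PB.co ξ z w := by
  rw [PB.co_apply, PB.co_apply, idem_apply (ξ.idem _)]

theorem PB.L_co (ξ : Bun K) (z : PB ξ) (w : ξ.W) :
    (PB.L ξ).p z (PB.co ξ z w) = PB.co ξ z w := idem_apply ((PB.L ξ).idem z) _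

theorem PB.inc_L (ξ : Bun K) (z : PB ξ) (a : FD.std ξ.W.dim) :
    PB.inc ξ z ((PB.L ξ).p z a) = PB.inc ξ z a :=
  congrArg (fr ξ.W) (idem_apply ((PB.L ξ).idem z) a)

theorem PB.co_inc (ξ : Bun K) (z : PB ξ) (a : FD.std ξ.W.dim) :
    PB.co ξ z (PB.inc ξ z a) = (PB.L ξ).p z a := by
  rw [PB.co_apply, PB.p_inc, PB.inc_apply, ContinuousLinearEquiv.symm_apply_apply,
    idem_apply ((PB.L ξ).idem z)]

/-- The projection onto the complement of the tautological line. -/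
def PB.r (ξ : Bun K) : C(PB ξ, ξ.W →L[ℂ] ξ.W) :=
  ⟨fun z => ξ.p (PB.π ξ z) - PB.inc ξ z ∘L PB.co ξ z,
    (ξ.p.continuous.comp (PB.π ξ).continuous).sub
      ((PB.inc ξ).continuous.clm_comp (PB.co ξ).continuous)⟩

theorem PB.r_apply (ξ : Bun K) (z : PB ξ) (w : ξ.W) :
    PB.r ξ z w = ξ.p (PB.π ξ z) w - PB.inc ξ z (PB.co ξ z w) := rfl

theorem PB.r_inc (ξ : Bun K) (z : PB ξ) (a : FD.std ξ.W.dim) : PB.r ξ z (PB.inc ξ z a) = 0 := by
  rw [PB.r_apply, PB.p_inc, PB.co_inc, PB.inc_L, sub_self]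

theorem PB.co_r (ξ : Bun K) (z : PB ξ) (w : ξ.W) : PB.co ξ z (PB.r ξ z w) = 0 := by
  rw [PB.r_apply, map_sub, PB.co_p, PB.co_inc, PB.L_co, sub_self]

theorem PB.p_r (ξ : Bun K) (z : PB ξ) (w : ξ.W) :
    ξ.p (PB.π ξ z) (PB.r ξ z w) = PB.r ξ z w := by
  rw [PB.r_apply, map_sub, PB.p_inc, idem_apply (ξ.idem _)]

theorem PB.r_r (ξ : Bun K) (z : PB ξ) (w : ξ.W) : PB.r ξ z (PB.r ξ z w) = PB.r ξ z w := by
  rw [PB.r_apply ξ z (PB.r ξ z w), PB.co_r, map_zero, sub_zero, PB.p_r]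

/-- The complement of the tautological line in the pull back of the bundle. -/
abbrev PB.rest (ξ : Bun K) : Bun (PB ξ) :=
  ⟨ξ.W, PB.r ξ, fun z => ContinuousLinearMap.ext (PB.r_r ξ z)⟩

theorem PB.iso_rest (ξ : Bun K) : (ξ.pull (PB.π ξ)).Iso ((PB.L ξ).sum (PB.rest ξ)) := by
  refine ⟨⟨fun z => (PB.co ξ z).prod (PB.r ξ z), continuous_clm_apply.2 fun w =>
      ((PB.co ξ).continuous.clm_apply continuous_const).prodMk
        ((PB.r ξ).continuous.clm_apply continuous_const)⟩,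
    ⟨fun z => (PB.inc ξ z).coprod (PB.r ξ z), continuous_clm_apply.2 fun w =>
      ((PB.inc ξ).continuous.clm_apply continuous_const).add
        ((PB.r ξ).continuous.clm_apply continuous_const)⟩, fun z => ⟨?_, ?_⟩⟩
  · refine ContinuousLinearMap.ext fun w => ?_
    show PB.inc ξ z (PB.co ξ z w) + PB.r ξ z (PB.r ξ z w) = ξ.p (PB.π ξ z) w
    rw [PB.r_r, PB.r_apply, add_sub_cancel]
  · refine ContinuousLinearMap.ext fun w => Prod.ext ?_ ?_
    · show PB.co ξ z (PB.inc ξ z w.1 + PB.r ξ z w.2) = (PB.L ξ).p z w.1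
      rw [map_add, PB.co_inc, PB.co_r, add_zero]
    · show PB.r ξ z (PB.inc ξ z w.1 + PB.r ξ z w.2) = PB.r ξ z w.2
      rw [map_add, PB.r_inc, PB.r_r, zero_add]

theorem PB.rk_rest (g : S_good2) (b : S_bun) (ξ : Bun K) {k : ℕ} (hk : ξ.Rk (k + 1)) :
    (PB.rest ξ).Rk k := fun z => by
  obtain ⟨u, v, h⟩ := PB.iso_rest ξ
  have h1 := g.rk_iso _ _ (u z) (v z) ((ξ.pull (PB.π ξ)).idem z)
    (((PB.L ξ).sum (PB.rest ξ)).idem z) (h z).1 (h z).2
  have h2 := g.rk_sum ((PB.L ξ).p z) ((PB.rest ξ).p z)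
  have h3 := PB.rk_L b ξ z
  have h4 := hk (PB.π ξ z)
  have h5 : k + 1 = 1 + rk ((PB.rest ξ).p z) := by
    rw [← h4, ← h3, ← h2]
    exact h1
  omega

theorem split_one (M : Bun K) : M.Split fun _ : Fin 1 => M :=
  ⟨fun _ => M.p, fun _ => M.p, fun x => ⟨fun _ => M.idem x,
    fun i j h => absurd (Subsingleton.elim i j) h, by rw [Fin.sum_univ_one, M.idem]⟩⟩

theorem split_zero (ξ : Bun K) (hk : ξ.Rk 0) (L : Fin 0 → Bun K) : ξ.Split L := by
  refine ⟨fun i => i.elim0, fun i => i.elim0, fun x => ⟨fun i => i.elim0, fun i => i.elim0, ?_⟩⟩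
  rw [Fin.sum_univ_zero]
  have h : LinearMap.range (ξ.p x : ξ.W →ₗ[ℂ] ξ.W) = ⊥ := Submodule.finrank_eq_zero.1 (hk x)
  exact ContinuousLinearMap.coe_injective (LinearMap.range_eq_bot.1 h).symm

/-- The product of a space with a projective bundle is a projective bundle. -/
theorem isPr_prod (T : Type) [TopologicalSpace T] {P : Type} [TopologicalSpace P] {ξ : Bun K}
    {N : ℕ} {φ : FD.std N ≃L[ℂ] ξ.W} {π : C(P, K)} {q : C(P, CP N N)} (hp : IsPr ξ φ π q) :
    IsPr (ξ.pull (ContinuousMap.snd : C(T × K, K))) φ ((ContinuousMap.id T).prodMap π)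
      (q.comp ContinuousMap.snd) := by
  refine ⟨(Homeomorph.prodAssoc T K (CP N N)).symm.isEmbedding.comp
    ((IsEmbedding.id (X := T)).prodMap hp.1), Set.ext fun z => ⟨?_, fun hz => ?_⟩⟩
  · rintro ⟨e, rfl⟩
    exact hp.2.subset ⟨e.2, rfl⟩
  · obtain ⟨e, he⟩ := hp.2.superset (show (z.1.2, z.2) ∈ _ from hz)
    have h1 : π e = z.1.2 := congrArg Prod.fst he
    have h2 : q e = z.2 := congrArg Prod.snd he
    exact ⟨(z.1.1, e), Prod.ext (Prod.ext rfl h1) h2⟩

variable [C : Fact Core]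

/-- Pull back to a projective bundle of positive rank is injective. -/
theorem inj_of (A : Api) (p : S_PBT) [CompactSpace K] [T2Space K] {P : Type} [TopologicalSpace P]
    [CompactSpace P] [T2Space P] (ξ : Bun K) {k N : ℕ} (φ : FD.std N ≃L[ℂ] ξ.W) (π : C(P, K))
    (q : C(P, CP N N)) (hk : ξ.Rk (k + 1)) (hp : IsPr ξ φ π q) : Function.Injective (pull π) := by
  have e : ∀ x : h K, ∑ i : Fin (k + 1), eu ((taut N N).pull q) ^ (i : ℕ) *
      pullR π (Fin.cons (α := fun _ => h K) x 0 i) = pull π x := fun x => by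
    simp [Fin.sum_univ_succ, pullR_apply]
  intro x y hxy
  exact congrFun ((basis_of A p ξ φ π q hk hp).1 ((e x).trans (hxy.trans (e y).symm))) 0

theorem inj_comp {K'' : Type} [TopologicalSpace K''] [T2Space K] [CompactSpace K'] [T2Space K']
    [CompactSpace K''] {f : C(K', K)} {g : C(K'', K')} (hf : Function.Injective (pull f))
    (hg : Function.Injective (pull g)) : Function.Injective (pull (f.comp g)) := fun x y hxy => by
  rw [← pull_comp f.continuous.isProperMap g.continuous.isProperMap,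
    ← pull_comp f.continuous.isProperMap g.continuous.isProperMap] at hxy
  exact hf (hg hxy)

theorem inj_id : Function.Injective (pull (ContinuousMap.id K)) := fun x y hxy => by
  rwa [pull_id, pull_id] at hxy

theorem split (A : Api) (p : S_PBT) : S_Split := by
  intro K _ _ _ ξ k hk
  induction k generalizing K with
  | zero =>
    exact ⟨K, inferInstance, inferInstance, inferInstance, ContinuousMap.id K, Fin.elim0,
      fun i => i.elim0, split_zero _ hk _, inj_id, fun T _ _ _ => inj_id (K := T × K)⟩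
  | succ k ih =>
    obtain ⟨K', _, _, _, f, L, h1, h2, h3, h4⟩ := ih (PB.rest ξ) (PB.rk_rest C.out.good2 A.bun ξ hk)
    obtain ⟨u, v, h⟩ := PB.iso_rest ξ
    rw [Nat.add_comm k 1]
    refine ⟨K', inferInstance, inferInstance, inferInstance, (PB.π ξ).comp f,
      Fin.append (fun _ : Fin 1 => (PB.L ξ).pull f) L, fun i => ?_, ?_,
      inj_comp (inj_of A p ξ _ _ _ hk (PB.isPr ξ)) h3, fun T _ _ _ =>
      inj_comp (inj_of A p (ξ.pull ContinuousMap.snd) _ _ _ (fun z => hk z.2)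
        (isPr_prod T (PB.isPr ξ))) (h4 T)⟩
    · induction i using Fin.addCases with
      | left i => rw [Fin.append_left]; exact fun x => PB.rk_L A.bun ξ (f x)
      | right i => rw [Fin.append_right]; exact h1 i
    · exact A.bun.split_iso _ _ _ ⟨v.comp f, u.comp f, fun x => ⟨(h (f x)).2, (h (f x)).1⟩⟩
        (A.bun.split_sum _ _ _ _ (split_one _) h2)

end

end Pool.Agent.MP_826def_gt.BF
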